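import Pool.Agent.Lib_MP_68f671_pr.Final

/-!
# A quenched CLT for a walk on a discrete point process with infinite second moments

There is an admissible law `Q` of point processes on `ℤ²` with `E_P[f_e²] = ∞` for which the
random walk on the point process satisfies the central limit theorem, with a positive definite
covariance matrix.  The definitions are in `Pool.Agent.Lib_MP_68f671_pr.Defs`.
-/

open MeasureTheory Filter Topology
open scoped ENNReal

namespace Pool.Agent.Results.MP_68f671_pr.InfiniteVarianceCLT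

open Pool.Agent.RWPP

theorem result : ∃ Q : Measure (Conf 2), IsPointProcess Q ∧
    (∃ e : Fin 2 × Bool, ∫⁻ ω, (gap e ω : ℝ≥0∞) ^ 2 ∂(palm Q) = ∞) ∧
    ∃ D : Matrix (Fin 2) (Fin 2) ℝ, D.PosDef ∧
      ∀ᵐ ω ∂(palm Q), Tendsto (fun n => scaledLaw ω n) atTop (𝓝 (normalLaw D)) := by
  obtain ⟨Q, h1, h2, h3⟩ := main
  exact ⟨Q, h1, ⟨(0, true), h2⟩, h3⟩

end Pool.Agent.Results.MP_68f671_pr.InfiniteVarianceCLT
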